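import Mathlib
import Pool.Agent.T6.H80.MT.Final

set_option autoImplicit false

/-!
Realizability of 0-1 matrices by curves is not invariant under transposition: there is a 13 by 17
matrix that is realizable by curves while its transpose is not.
-/

open Pool.Agent.T6.H80.MT in
theorem Pool.Agent.Results.MP_3c53dc_co.TransposeFails.result :
    ∃ A : Matrix (Fin 13) (Fin 17) Bool, RealizableByCurves A ∧
      ¬ RealizableByCurves A.transpose :=
  ⟨MA, real_MA, nonreal_MA⟩
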